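import Pool.Agent.Y410.UF.Disc2

/-! # Project UF: scattered definable sets (adaptation of the proof of helper410) -/

set_option autoImplicit false

namespace Pool.Agent.Y924.UF

open Function
open Pool.Agent.Y924.EL
open Pool.Agent.Y410.UF

/-- the isolated points of a definable set -/
def Iso {p : ℕ} [Fact p.Prime] (P : Set (LaurentSeries (ZMod p))) (φ : Fm)
    (v : ℕ → LaurentSeries (ZMod p)) : Set (LaurentSeries (ZMod p)) :=
  {x | x ∈ DefP P φ v ∧ ∃ b : LaurentSeries (ZMod p), b ≠ 0 ∧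
    ∀ y, y ∈ DefP P φ v → (∃ z, z ∈ OO p ∧ b * z + x = y) → y = x}

theorem iso_finite (hVAL : S_VAL) (p : ℕ) [Fact p.Prime] (P : Set (LaurentSeries (ZMod p)))
    (huni : ∀ φ : Fm, ∃ N : ℕ, ∀ v, (DefP P φ v).Finite → (DefP P φ v).ncard ≤ N)
    (φ : Fm) (v : ℕ → LaurentSeries (ZMod p)) : (Iso P φ v).Finite := by
  classical
  have hval := (hVAL p).1
  obtain ⟨N, hN⟩ := huni (psi (p + 1) φ)
  by_contra hinf
  obtain ⟨F, hFA, hFN⟩ := Set.Infinite.exists_subset_card_eq hinf (N + 1)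
  -- `b` and `c`
  choose! β hβ0 hβ using fun x (hx : x ∈ Iso P φ v) => hx.2
  obtain ⟨b, hbF, hb⟩ := Finset.exists_min_image (insert 1 (F.image β)) w ⟨1, by simp⟩
  obtain ⟨c, hcF, hc⟩ := Finset.exists_max_image (insert 1 F) w ⟨1, by simp⟩
  have hb0 : b ≠ 0 := by
    rcases Finset.mem_insert.1 hbF with h | h
    · rw [h]; exact one_ne_zero
    · obtain ⟨x, hx, rfl⟩ := Finset.mem_image.1 h
      exact hβ0 x (hFA hx)
  have hc0 : c ≠ 0 := by
    have h1 : w (1 : LaurentSeries (ZMod p)) ≤ w c := hc 1 (by simp)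
    intro h
    rw [h] at h1
    simp [w] at h1
  set A' := DefP P (psi (p + 1) φ) (par b c (HahnSeries.single (1 : ℤ) (1 : ZMod p)) v) with hA'
  have hmem : ∀ x, x ∈ A' ↔ x ∈ DefP P φ v ∧ w x ≤ w c ∧
      ∀ y, y ∈ DefP P φ v → w y ≤ w c → (∃ z, z ∈ OO p ∧ b * z + x = y) → y = x := by
    intro x
    have := sat_psi P (p + 1) φ v b c (HahnSeries.single (1 : ℤ) (1 : ZMod p)) x
    simp only [← hval, mem_mul_OO hc0] at this
    exact this
  have hbx : ∀ x y : LaurentSeries (ZMod p), (∃ z, z ∈ OO p ∧ b * z + x = y) ↔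
      w (y - x) ≤ w b := by
    intro x y
    rw [← mem_mul_OO hb0]
    constructor
    · rintro ⟨z, hz, h⟩
      exact ⟨z, hz, by rw [← h]; ring⟩
    · rintro ⟨z, hz, h⟩
      exact ⟨z, hz, by rw [h]; ring⟩
  have hfin : A'.Finite := by
    refine finite_of b c hb0 hc0 A' (fun x hx => ((hmem x).1 hx).2.1) ?_
    intro x hx y hy hxy
    exact ((hmem y).1 hy).2.2 x ((hmem x).1 hx).1 ((hmem x).1 hx).2.1 ((hbx y x).2 hxy)
  have hsub : (F : Set (LaurentSeries (ZMod p))) ⊆ A' := by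
    intro x hx
    rw [hmem]
    refine ⟨(hFA hx).1, hc x (Finset.mem_insert_of_mem hx), fun y hy _ hyx => ?_⟩
    refine hβ x (hFA hx) y hy ?_
    have h1 : w (y - x) ≤ w (β x) := ((hbx x y).1 hyx).trans
      (hb _ (Finset.mem_insert_of_mem (Finset.mem_image_of_mem β hx)))
    obtain ⟨z, hz, h⟩ := (mem_mul_OO (hβ0 x (hFA hx)) (y - x)).2 h1
    exact ⟨z, hz, by rw [h]; ring⟩
  have h1 : A'.ncard ≤ N := hN _ hfin
  have h2 : F.card ≤ A'.ncard := by
    rw [← Set.ncard_coe_finset]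
    exact Set.ncard_le_ncard hsub hfin
  omega

/-- scattered: every nonempty subset has an isolated point -/
theorem scat_finite (hVAL : S_VAL) (p : ℕ) [Fact p.Prime] (P : Set (LaurentSeries (ZMod p)))
    (huni : ∀ φ : Fm, ∃ N : ℕ, ∀ v, (DefP P φ v).Finite → (DefP P φ v).ncard ≤ N)
    (φ : Fm) (v : ℕ → LaurentSeries (ZMod p))
    (h : ∀ T : Set (LaurentSeries (ZMod p)), T ⊆ DefP P φ v → T.Nonempty → ∃ x ∈ T,
      ∃ b : LaurentSeries (ZMod p), b ≠ 0 ∧ ∀ y ∈ T, (∃ z, z ∈ OO p ∧ b * z + x = y) → y = x) :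
    (DefP P φ v).Finite := by
  classical
  have hI := iso_finite hVAL p P huni φ v
  by_contra hinf
  have hne : (DefP P φ v \ Iso P φ v).Nonempty := by
    by_contra hne
    rw [Set.not_nonempty_iff_eq_empty, Set.sdiff_eq_empty] at hne
    exact hinf (hI.subset hne)
  obtain ⟨x, hx, b, hb, hxb⟩ := h _ Set.sdiff_subset hne
  obtain ⟨d, hdF, hd⟩ := Finset.exists_min_image (insert b (hI.toFinset.image fun y => y - x)) w
    ⟨b, by simp⟩
  have hd0 : d ≠ 0 := by
    rcases Finset.mem_insert.1 hdF with h1 | h1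
    · rw [h1]; exact hb
    · obtain ⟨y, hy, rfl⟩ := Finset.mem_image.1 h1
      refine sub_ne_zero.2 fun h2 => hx.2 ?_
      rw [← h2]
      exact hI.mem_toFinset.1 hy
  refine hx.2 ⟨hx.1, HahnSeries.single (1 : ℤ) (1 : ZMod p) * d,
    mul_ne_zero (HahnSeries.single_ne_zero one_ne_zero) hd0, fun y hy hz => ?_⟩
  have ht : w (HahnSeries.single (1 : ℤ) (1 : ZMod p)) < 1 := by
    unfold w
    rw [LaurentSeries.valuation_single_zpow, ← WithZero.exp_zero]
    exact WithZero.exp_lt_exp.2 (by norm_num)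
  have hwd : w d ≠ 0 := (Valuation.ne_zero_iff _).2 hd0
  have h1 : w (y - x) < w d := by
    obtain ⟨z, hz1, hz2⟩ := hz
    have h2 : y - x = HahnSeries.single (1 : ℤ) (1 : ZMod p) * d * z := by rw [← hz2]; ring
    have h3 : w z ≤ 1 := (mem_OO z).1 hz1
    rw [h2]
    unfold w at *
    rw [map_mul, map_mul]
    calc _ ≤ Valued.v (HahnSeries.single (1 : ℤ) (1 : ZMod p)) * Valued.v d * 1 :=
          mul_le_mul_right h3 _
      _ = Valued.v (HahnSeries.single (1 : ℤ) (1 : ZMod p)) * Valued.v d := mul_one _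
      _ < 1 * Valued.v d := by
          exact mul_lt_mul_of_pos_right ht (zero_lt_iff.2 hwd)
      _ = Valued.v d := one_mul _
  by_cases hyI : y ∈ Iso P φ v
  · exact absurd (hd (y - x) (Finset.mem_insert_of_mem (Finset.mem_image_of_mem _
      (hI.mem_toFinset.2 hyI)))) (not_le.2 h1)
  · refine hxb y ⟨hy, hyI⟩ ?_
    have h2 : w (y - x) ≤ w b := h1.le.trans (hd b (Finset.mem_insert_self _ _))
    obtain ⟨z, hz1, hz2⟩ := (mem_mul_OO hb (y - x)).2 h2
    exact ⟨z, hz1, by rw [hz2]; ring⟩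

end Pool.Agent.Y924.UF
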