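import Pool.Agent.Y924.EL.Stm2

/-! # Project UF: if the theory of F_p((t)) is decidable then it has uniform finiteness

Definitions.  (helper924) -/

set_option autoImplicit false

namespace Pool.Agent.Y924.UF

open Function
open Pool.Agent.Y924.EL

/-! ## Levels without codes for all functions -/

/-- functional evaluation relation -/
def Func {K : Type} (M : Lev K) : Prop :=
  ∀ s i v v', M.D i → M.E s i v → M.E s i v' → v = v'

/-- all functions from the domain to the domain have codes -/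
def Comp {K : Type} (M : Lev K) : Prop :=
  ∀ φ : K → K, (∀ i, M.D i → M.D (φ i)) → ∃ s, ∀ i, M.D i → M.E s i (φ i)

section

variable {K : Type} [CommRing K]

/-- `y` is a sum of `t ^ i w_i ^ p` over `i < k` (Horner form) -/
def Ex (t : K) (p : ℕ) : ℕ → K → Prop
  | 0, y => y = 0
  | k + 1, y => ∃ w y', Ex t p k y' ∧ w ^ p + t * y' = y

/-- the subgroup of all `w_0 ^ p - w_0 + t w_1 ^ p + ... + t ^ (p - 1) w_(p - 1) ^ p` -/
def HH (t : K) (p : ℕ) (z : K) : Prop := ∃ w y', Ex t p (p - 1) y' ∧ w ^ p + t * y' = z + w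

/-- the relation coded by `s` (with the parameters `t, u, w`) -/
def BB (t : K) (p : ℕ) (u w s a b : K) : Prop := ∃ z, z * ((u - a) * (w - b)) = s ∧ HH t p z

/-- the level on the set `S` given by the parameters `t, u, w` and the code `l` of an order -/
def lev (S : Set K) (t : K) (p : ℕ) (u w l : K) : Lev K where
  D x := x ∈ S
  L x y := x ∈ S ∧ y ∈ S ∧ BB t p u w l x y
  E s i v := i ∈ S ∧ v ∈ S ∧ BB t p u w s i v ∧ ∀ v', v' ∈ S → BB t p u w s i v' → v' = v

end

/-- the number of hidden variables: `Q` is preserved by the updates of the first 64 variables -/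
def Keeps {K : Type} (Q : (ℕ → K) → Prop) : Prop :=
  ∀ (v : ℕ → K) (i : ℕ) (a : K), i < 64 → Q v → Q (update v i a)

/-- the first three holes mean the level `M` if `Q` holds -/
def RepQ {K : Type} [CommRing K] (O : Set K) (Q : (ℕ → K) → Prop) (h : Fin 5 → Fm)
    (M : Lev K) : Prop :=
  ∀ v : ℕ → K, Q v → (Sat O (h 0) v ↔ M.D (v 0)) ∧ (Sat O (h 1) v ↔ M.L (v 0) (v 1)) ∧
    (Sat O (h 2) v ↔ M.E (v 0) (v 1) (v 2))

/-- hole 3 means the number `k`, hole 4 the pairing relation -/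
def RepQ2 {K : Type} [CommRing K] (O : Set K) (Q : (ℕ → K) → Prop) (h : Fin 5 → Fm) (M : Lev K)
    (k : ℕ) : Prop :=
  ∀ v : ℕ → K, Q v → (Sat O (h 3) v ↔ Num M k (v 0)) ∧
    (Sat O (h 4) v ↔ PairR M (v 0) (v 1) (v 2))

/-! ## Formulas -/

/-- renaming of all variables (free and bound) -/
def ren (σ : ℕ → ℕ) : Fm → Fm
  | .eq i j => .eq (σ i) (σ j)
  | .one i => .one (σ i)
  | .add i j k => .add (σ i) (σ j) (σ k)
  | .mul i j k => .mul (σ i) (σ j) (σ k)
  | .val i => .val (σ i)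
  | .neg φ => .neg (ren σ φ)
  | .and φ ψ => .and (ren σ φ) (ren σ ψ)
  | .ex i φ => .ex (σ i) (ren σ φ)

/-- all variables (free and bound) are below `V` -/
def Below (V : ℕ) : Fm → Prop
  | .eq i j => i < V ∧ j < V
  | .one i => i < V
  | .add i j k => i < V ∧ j < V ∧ k < V
  | .mul i j k => i < V ∧ j < V ∧ k < V
  | .val i => i < V
  | .neg φ => Below V φ
  | .and φ ψ => Below V φ ∧ Below V ψ
  | .ex i φ => i < V ∧ Below V φ

/-- the same for templates -/
def BelowT (V : ℕ) : Tp → Prop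
  | .hole _ => True
  | .atom φ => Below V φ
  | .neg τ => BelowT V τ
  | .and τ υ => BelowT V τ ∧ BelowT V υ
  | .ex i τ => i < V ∧ BelowT V τ

/-- existential quantification of the variables `x_0, ..., x_(n - 1)` -/
def exsT : ℕ → Tp → Tp
  | 0, τ => τ
  | n + 1, τ => exsT n (.ex n τ)

/-! ## The formulas of the level; `x_64 = t`, `x_65 = u`, `x_66 = w`, `x_67 = l` -/

/-- `x_a ^ p = x_b` (`a, b ≥ 10`) -/
def powC (p a b : ℕ) : Fm := .ex 4 (.ex 5 (.and (.eq 4 a) (.and (.eq 5 b) (powF p))))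

/-- `Ex x_64 p k x_20` -/
def ExF (p : ℕ) : ℕ → Fm
  | 0 => .add 20 20 20
  | k + 1 => .ex 21 (.ex 22 (.and
      (.ex 23 (.and (.eq 23 22) (.ex 20 (.and (.eq 20 23) (ExF p k)))))
      (.ex 24 (.ex 25 (.and (powC p 21 24) (.and (.mul 64 22 25) (.add 24 25 20)))))))

/-- `HH x_64 p x_20` -/
def HF (p : ℕ) : Fm :=
  .ex 21 (.ex 22 (.and
    (.ex 23 (.and (.eq 23 22) (.ex 20 (.and (.eq 20 23) (ExF p (p - 1))))))
    (.ex 24 (.ex 25 (.ex 26 (.and (powC p 21 24) (.and (.mul 64 22 25)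
      (.and (.add 24 25 26) (.add 20 21 26)))))))))

/-- `BB x_64 p x_65 x_66 x_30 x_31 x_32` -/
def BF (p : ℕ) : Fm :=
  .ex 33 (.ex 34 (.ex 35 (.ex 20 (.and (.add 33 31 65) (.and (.add 34 32 66)
    (.and (.mul 33 34 35) (.and (.mul 20 35 30) (HF p))))))))

/-- the domain (`x_0`) for a formula `φ'` -/
def DF (φ' : Fm) : Fm := .neg (.and (.neg φ') (.and (.neg (.add 0 0 0)) (.neg (.one 0))))

/-- `DF` for the variable `x_a` (`a ≥ 1`) -/
def DFa (φ' : Fm) (a : ℕ) : Fm := .ex 0 (.and (.eq 0 a) (DF φ'))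

/-- `BF` for `x_a, x_b, x_c` (`a ≠ 30`, `b ≠ 30, 31`, `c ≠ 30, 31, 32`) -/
def BFa (p a b c : ℕ) : Fm :=
  .ex 30 (.and (.eq 30 a) (.ex 31 (.and (.eq 31 b) (.ex 32 (.and (.eq 32 c) (BF p))))))

/-- the order (`x_0, x_1`) -/
def LF (p : ℕ) (φ' : Fm) : Fm := .and (DF φ') (.and (DFa φ' 1) (BFa p 67 0 1))

/-- the evaluation (`x_0 = s, x_1 = i, x_2 = v`) -/
def EF (p : ℕ) (φ' : Fm) : Fm :=
  .and (DFa φ' 1) (.and (DFa φ' 2) (.and (BFa p 0 1 2)
    (.neg (.ex 36 (.and (DFa φ' 36) (.and (BFa p 0 1 36) (.neg (.eq 36 2))))))))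

/-- the start -/
def hU (p : ℕ) (φ' : Fm) : Fin 5 → Fm := ![DF φ', LF p φ', EF p φ', .one 0, .one 0]

open Pool.Agent.Y924.EL.Tp in
/-- finiteness of the domain (in a local field with valuation ring `O`) -/
def FinT : Tp :=
  .ex 13 (.ex 14 (.and (.neg (isZ 13)) (.and (.neg (isZ 14))
    (.and (all 10 (imp (cD 10) (.ex 12 (.and (.atom (.val 12)) (.atom (.mul 14 12 10))))))
      (all 10 (all 11 (imp (cD 10) (imp (cD 11)
        (imp (.ex 12 (.ex 15 (.and (.atom (.val 12)) (.and (.atom (.mul 13 12 15))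
          (.atom (.add 15 11 10)))))) (eqv 10 11))))))))))

open Pool.Agent.Y924.EL.Tp in
/-- the order is a strict linear order -/
def OrdT : Tp :=
  .and (all 10 (.neg (cL 10 10)))
    (.and (all 10 (all 11 (all 12 (imp (cL 10 11) (imp (cL 11 12) (cL 10 12))))))
      (all 10 (all 11 (imp (cD 10) (imp (cD 11) (or (eqv 10 11) (or (cL 10 11) (cL 11 10))))))))

open Pool.Agent.Y924.EL.Tp in
/-- some `m` is such that the program `cc` has on `pair m n` the output 1, `n` in hole 3 -/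
def HBody (cc : ℕ) : Tp :=
  .ex 16 (.and (cA 16) (.ex 15 (.ex 11 (.and (cP 15 16 11) (.ex 10 (.and (cNum cc 10)
    (.ex 12 (.and (cNum 1 12) cUni))))))))

/-- the template of the final sentence -/
def UT (cc V : ℕ) : Tp := exsT V (.and FinT (.and OrdT (HBody cc)))

/-- the formulas in the holes for the number `n` -/
def hU' (p : ℕ) (φ' : Fm) (n : ℕ) : Fin 5 → Fm := (stepH TA1)^[n] (stepH TA0 (hU p φ'))

end Pool.Agent.Y924.UF
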