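import Pool.Agent.Y924.UF.Stm
import Pool.Agent.Y972.EL.UNI
import Pool.Agent.Y151.EL.Uniq
import Pool.Agent.Y555.EL.Code

/-! # Project UF: the levels on finite sets -/

set_option autoImplicit false

namespace Pool.Agent.Y924.UF

open Function
open Pool.Agent.Y924.EL

theorem sat_agree {K : Type} [CommRing K] (O : Set K) {V : ℕ} : ∀ (φ : Fm), Below V φ →
    ∀ a b : ℕ → K, (∀ i, i < V → a i = b i) → (Sat O φ a ↔ Sat O φ b) := by
  intro φ
  induction φ with
  | eq i j =>
    intro h a b hab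
    simp only [Sat, hab i h.1, hab j h.2]
  | one i =>
    intro h a b hab
    simp only [Sat, hab i h]
  | add i j k =>
    intro h a b hab
    simp only [Sat, hab i h.1, hab j h.2.1, hab k h.2.2]
  | mul i j k =>
    intro h a b hab
    simp only [Sat, hab i h.1, hab j h.2.1, hab k h.2.2]
  | val i =>
    intro h a b hab
    simp only [Sat, hab i h]
  | neg φ ih =>
    intro h a b hab
    exact not_congr (ih h a b hab)
  | and φ ψ ih1 ih2 =>
    intro h a b hab
    exact and_congr (ih1 h.1 a b hab) (ih2 h.2 a b hab)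
  | ex i φ ih =>
    intro h a b hab
    refine exists_congr fun x => ih h.2 _ _ fun j hj => ?_
    by_cases hji : j = i
    · subst hji
      simp
    · rw [update_of_ne hji, update_of_ne hji, hab j hj]

section

variable (p : ℕ) [Fact p.Prime]

/-- the uniformizer -/
noncomputable def tt : LaurentSeries (ZMod p) := HahnSeries.single (1 : ℤ) (1 : ZMod p)

/-- the constant coefficient -/
def lam : LaurentSeries (ZMod p) →+ ZMod p where
  toFun x := x.coeff 0
  map_zero' := rfl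
  map_add' x y := HahnSeries.coeff_add ..

theorem lam_nondeg (a : LaurentSeries (ZMod p)) (ha : a ≠ 0) : ∃ s, lam p (s * a) ≠ 0 := by
  refine ⟨HahnSeries.single (-a.order) (1 : ZMod p), ?_⟩
  show ((HahnSeries.single (-a.order) (1 : ZMod p)) * a).coeff 0 ≠ 0
  have h1 := HahnSeries.coeff_single_mul_add (r := (1 : ZMod p)) (x := a) (a := a.order)
    (b := -a.order)
  rw [add_neg_cancel, one_mul] at h1
  rw [h1]
  exact mt HahnSeries.coeff_order_eq_zero.1 ha

instance infinite_laurent : Infinite (LaurentSeries (ZMod p)) := by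
  refine Infinite.of_injective (fun n : ℕ => HahnSeries.single (n : ℤ) (1 : ZMod p)) ?_
  intro m n h
  have h1 : (HahnSeries.single (m : ℤ) (1 : ZMod p)).order = (HahnSeries.single (n : ℤ)
    (1 : ZMod p)).order := congrArg _ h
  rw [HahnSeries.order_single one_ne_zero, HahnSeries.order_single one_ne_zero] at h1
  exact_mod_cast h1

theorem cod (hRES : S_RES) (hCOD : S_COD) (S : Set (LaurentSeries (ZMod p))) (hS : S.Finite) :
    ∃ u w : LaurentSeries (ZMod p), ∀ R : LaurentSeries (ZMod p) → LaurentSeries (ZMod p) → Prop,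
      ∃ s, ∀ a ∈ S, ∀ b ∈ S, (BB (tt p) p u w s a b ↔ R a b) := by
  obtain ⟨u, w, h1, h2⟩ := hCOD p (LaurentSeries (ZMod p)) (lam p) (lam_nondeg p) hS.toFinset
  refine ⟨u, w, fun R => ?_⟩
  obtain ⟨s, hs⟩ := h2 R
  refine ⟨s, fun a ha b hb => ?_⟩
  rw [← hs a (hS.mem_toFinset.2 ha) b (hS.mem_toFinset.2 hb)]
  have h3 : u - a ≠ 0 := sub_ne_zero.2 (h1 a (hS.mem_toFinset.2 ha)).1
  have h4 : w - b ≠ 0 := sub_ne_zero.2 (h1 b (hS.mem_toFinset.2 hb)).2
  have h5 : (u - a) * (w - b) ≠ 0 := mul_ne_zero h3 h4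
  constructor
  · rintro ⟨z, h6, h7⟩
    have h8 : z = s / ((u - a) * (w - b)) := by rw [eq_div_iff h5, h6]
    rw [← h8]
    exact (hRES p z).1 h7
  · intro h6
    exact ⟨s / ((u - a) * (w - b)), div_mul_cancel₀ _ h5, (hRES p _).2 h6⟩

end

/-- enumeration of a finite set -/
theorem exists_enum {K : Type} [Zero K] (S : Set K) (hS : S.Finite) : ∃ e : ℕ → K,
    (∀ x, x ∈ S ↔ ∃ k, k < S.ncard ∧ x = e k) ∧
    ∀ j k, j < S.ncard → k < S.ncard → e j = e k → j = k := by
  classical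
  have hc : hS.toFinset.card = S.ncard := (Set.ncard_eq_toFinset_card S hS).symm
  let E := hS.toFinset.equivFinOfCardEq hc
  refine ⟨fun k => if h : k < S.ncard then (E.symm ⟨k, h⟩ : K) else 0, fun x => ?_, ?_⟩
  · constructor
    · intro hx
      have hx' : x ∈ hS.toFinset := hS.mem_toFinset.2 hx
      refine ⟨(E ⟨x, hx'⟩ : ℕ), (E ⟨x, hx'⟩).2, ?_⟩
      beta_reduce
      rw [dif_pos (E ⟨x, hx'⟩).2]
      simp
    · rintro ⟨k, hk, rfl⟩
      beta_reduce
      rw [dif_pos hk]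
      exact hS.mem_toFinset.1 (E.symm ⟨k, hk⟩).2
  · intro j k hj hk h
    simp only [dif_pos hj, dif_pos hk] at h
    have h1 := E.symm.injective (Subtype.ext h)
    exact congrArg Fin.val h1

theorem lev_func {K : Type} [CommRing K] (S : Set K) (t : K) (p : ℕ) (u w l : K) :
    Func (lev S t p u w l) := by
  rintro s i v v' - ⟨-, h2, h3, h4⟩ ⟨-, h6, h7, h8⟩
  exact (h4 v' h6 h7).symm

/-- the level of a finite set with a coded order is as good as wanted -/
theorem lev_good (p : ℕ) [Fact p.Prime] (hRES : S_RES) (hCOD : S_COD)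
    (S : Set (LaurentSeries (ZMod p))) (hS : S.Finite) :
    ∃ (u w l : LaurentSeries (ZMod p)) (e : ℕ → LaurentSeries (ZMod p)),
      Enum (lev S (tt p) p u w l) S.ncard e ∧ Comp (lev S (tt p) p u w l) := by
  obtain ⟨u, w, h1⟩ := cod p hRES hCOD S hS
  obtain ⟨e, he1, he2⟩ := exists_enum S hS
  obtain ⟨l, hl⟩ := h1 fun a b => ∃ i j, i < j ∧ j < S.ncard ∧ a = e i ∧ b = e j
  refine ⟨u, w, l, e, ⟨he1, fun j k hj hk => ?_⟩, fun φ hφ => ?_⟩
  · have hj' : e j ∈ S := (he1 _).2 ⟨j, hj, rfl⟩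
    have hk' : e k ∈ S := (he1 _).2 ⟨k, hk, rfl⟩
    constructor
    · rintro ⟨-, -, h2⟩
      obtain ⟨i, i', h3, h4, h5, h6⟩ := (hl _ hj' _ hk').1 h2
      rw [he2 j i hj (by omega) h5, he2 k i' hk h4 h6]
      exact h3
    · intro h2
      exact ⟨hj', hk', (hl _ hj' _ hk').2 ⟨j, k, h2, hk, rfl, rfl⟩⟩
  · obtain ⟨s, hs⟩ := h1 fun a b => b = φ a
    refine ⟨s, fun i hi => ⟨hi, hφ i hi, (hs _ hi _ (hφ i hi)).2 rfl, fun v' hv' h2 => ?_⟩⟩
    exact (hs _ hi _ hv').1 h2

/-- a strict linear order on a finite set gives an enumeration -/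
theorem enum_of_order {K : Type} [Zero K] (M : Lev K) (S : Set K) (hS : S.Finite)
    (hD : ∀ x, M.D x ↔ x ∈ S) (h1 : ∀ x, ¬ M.L x x)
    (h2 : ∀ x y z, M.L x y → M.L y z → M.L x z)
    (h3 : ∀ x y, M.D x → M.D y → x = y ∨ M.L x y ∨ M.L y x) :
    ∃ e : ℕ → K, Enum M S.ncard e := by
  classical
  haveI : Fintype S := hS.fintype
  let r : S → S → Prop := fun a b => M.L a b
  haveI : IsStrictTotalOrder S r :=
    { trichotomous := fun a b h4 h5 => by
        rcases h3 a b ((hD _).2 a.2) ((hD _).2 b.2) with h | h | h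
        · exact Subtype.ext h
        · exact absurd h h4
        · exact absurd h h5
      irrefl := fun a => h1 a
      trans := fun a b c => h2 a b c }
  letI : LinearOrder S := linearOrderOfSTO r
  have hc : Fintype.card S = S.ncard := by
    rw [← Nat.card_eq_fintype_card, Nat.card_coe_set_eq]
  let E : Fin S.ncard ≃o S := Fintype.orderIsoFinOfCardEq S hc
  refine ⟨fun k => if h : k < S.ncard then (E ⟨k, h⟩ : K) else 0, fun x => ?_, ?_⟩
  · rw [hD]
    constructor
    · intro hx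
      refine ⟨(E.symm ⟨x, hx⟩ : ℕ), (E.symm ⟨x, hx⟩).2, ?_⟩
      beta_reduce
      rw [dif_pos (E.symm ⟨x, hx⟩).2]
      simp
    · rintro ⟨k, hk, rfl⟩
      beta_reduce
      rw [dif_pos hk]
      exact (E ⟨k, hk⟩).2
  · intro j k hj hk
    simp only [dif_pos hj, dif_pos hk]
    have h4 : E ⟨j, hj⟩ < E ⟨k, hk⟩ ↔ (⟨j, hj⟩ : Fin S.ncard) < ⟨k, hk⟩ := E.lt_iff_lt
    exact h4

end Pool.Agent.Y924.UF
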