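import Pool.Agent.Y924.UF.Lem

/-! # Project UF: the reduction -/

set_option autoImplicit false

namespace Pool.Agent.Y924.UF

open Function
open Pool.Agent.Y924.EL

/-- the sentence is true in the valued field `F_p((t))` -/
def InT (p : ℕ) [Fact p.Prime] (φ : Fm) : Prop :=
  ∀ v : ℕ → LaurentSeries (ZMod p), Sat (OO p) φ v

/-- renaming of the variables -/
def sg (i : ℕ) : ℕ := if i = 0 then 0 else i + 100

theorem sg_inj : Injective sg := by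
  intro i j h
  unfold sg at h
  split_ifs at h <;> omega

/-- the sentence with the number `n` -/
def psi (p : ℕ) (φ : Fm) (cc V n : ℕ) : Fm := (UT cc V).inst (hU' p (ren sg φ) n)

theorem keeps_of {K : Type} (w : ℕ → K) : Keeps fun v' : ℕ → K => ∀ i, 64 ≤ i → v' i = w i := by
  intro v i a hi hv j hj
  rw [update_of_ne (by omega)]
  exact hv j hj

theorem comp_sg {K : Type} (w v' : ℕ → K) (h : ∀ i, 64 ≤ i → v' i = w i) :
    v' ∘ sg = update (w ∘ sg) 0 (v' 0) := by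
  funext i
  by_cases hi : i = 0
  · subst hi
    simp [sg]
  · rw [update_of_ne hi]
    show v' (sg i) = w (sg i)
    unfold sg
    rw [if_neg hi]
    exact h _ (by omega)

theorem sound (hREN : S_REN) (hFML : S_FML) (hSEMA : S_SEMA) (hSEMB : S_SEMB) (hFIN : S_FIN)
    (hUNI1 : S_UNI1) (p : ℕ) [Fact p.Prime] (φ : Fm) {f : ℕ → ℕ} {cc k : ℕ}
    (hrec : ∀ x : ℕ, ∃ W : Set ℕ, Closed W ∧ tr cc x (f x) ∈ W ∧ ∀ s ∈ W, s < tower k x)
    (V n : ℕ) (v0 : ℕ → LaurentSeries (ZMod p)) (h : Sat (OO p) (psi p φ cc V n) v0) :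
    ∃ i, f (Nat.pair i n) = 1 := by
  obtain ⟨w, -, hw⟩ := (hREN.2 _ (OO p) V _ _ v0).1 h
  obtain ⟨Q, hQdef⟩ : ∃ Q : (ℕ → LaurentSeries (ZMod p)) → Prop,
      Q = fun v' => ∀ i, 64 ≤ i → v' i = w i := ⟨_, rfl⟩
  have hQ : Keeps Q := by
    rw [hQdef]
    exact keeps_of w
  obtain ⟨S, hSdef⟩ : ∃ S : Set (LaurentSeries (ZMod p)),
      S = {x | Sat (OO p) φ (update (w ∘ sg) 0 x) ∨ x = 0 ∨ x = 1} := ⟨_, rfl⟩
  have hS : ∀ v', Q v' → (Sat (OO p) (ren sg φ) v' ∨ v' 0 = 0 ∨ v' 0 = 1 ↔ v' 0 ∈ S) := by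
    intro v' hv'
    rw [hQdef] at hv'
    rw [hREN.1 _ _ sg sg_inj, comp_sg w v' hv', hSdef]
    rfl
  have hR := hFML _ (OO p) p (ren sg φ) S (w 64) (w 65) (w 66) (w 67) Q hQ (by
    intro v' hv'
    rw [hQdef] at hv'
    exact ⟨hv' _ (by norm_num), hv' _ (by norm_num), hv' _ (by norm_num), hv' _ (by norm_num)⟩) hS
  obtain ⟨M, hM⟩ : ∃ M, M = lev S (w 64) p (w 65) (w 66) (w 67) := ⟨_, rfl⟩
  rw [← hM] at hR
  have hF : Func M := by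
    rw [hM]
    exact lev_func _ _ _ _ _ _
  have hD : ∀ x, M.D x ↔ x ∈ S := fun x => by rw [hM]; rfl
  obtain ⟨hR', hR2⟩ := hSEMA _ _ Q _ M hQ hR n
  have hB := hSEMB _ _ Q _ M n cc hQ hR' hR2 w (by rw [hQdef]; exact fun _ _ => rfl)
  obtain ⟨h1, h2, h3⟩ := hw
  have hfin : S.Finite := by
    rw [hFIN p S]
    obtain ⟨b, c, hb, hc, h4, h5⟩ := hB.1.1 h1
    exact ⟨b, c, hb, hc, fun x hx => h4 x ((hD x).2 hx),
      fun x y hx hy => h5 x y ((hD x).2 hx) ((hD y).2 hy)⟩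
  obtain ⟨h6, h7, h8⟩ := hB.2.1.1 h2
  obtain ⟨e, he⟩ := enum_of_order M S hfin hD h6 h7 h8
  obtain ⟨a, ha, m, x, hx, g, hg, y, hy, hU⟩ := hB.2.2.1 h3
  obtain ⟨hn, rfl⟩ := (Pool.Agent.Y972.EL.num_iff he n a).1 ha
  obtain ⟨hP, hU1⟩ := hUNI1 _ M _ e 1 hF he
  obtain ⟨i, j, hij, rfl, hj, rfl⟩ := hP _ _ _ hx
  have hjn : n = j := Pool.Agent.Y972.EL.enum_inj he hn
    (lt_of_le_of_lt (Nat.right_le_pair i j) hij) hj
  subst hjn
  obtain ⟨hcc, rfl⟩ := (Pool.Agent.Y972.EL.num_iff he cc g).1 hg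
  obtain ⟨h1N, rfl⟩ := (Pool.Agent.Y972.EL.num_iff he 1 y).1 hy
  obtain ⟨W, hW1, hW2, -⟩ := hU1 cc (Nat.pair i n) 1 hcc hij h1N hU
  obtain ⟨W', hW'1, hW'2, -⟩ := hrec (Nat.pair i n)
  exact ⟨i, Pool.Agent.Y151.EL.t_UNIQ W' W cc _ _ _ hW'1 hW1 hW'2 hW2⟩

theorem complete (hRES : S_RES) (hCOD : S_COD) (hREN : S_REN) (hFML : S_FML) (hSEMA : S_SEMA)
    (hSEMB : S_SEMB) (hFIN : S_FIN) (hUNI2 : S_UNI2) (p : ℕ) [Fact p.Prime] (φ : Fm)
    {f : ℕ → ℕ} {cc k : ℕ}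
    (hrec : ∀ x : ℕ, ∃ W : Set ℕ, Closed W ∧ tr cc x (f x) ∈ W ∧ ∀ s ∈ W, s < tower k x)
    (hunb : ∀ N : ℕ, ∃ v, (DefSet p φ v).Finite ∧ N < (DefSet p φ v).ncard)
    {V0 V : ℕ} (hV0 : Below V0 φ) (hV : V0 + 168 ≤ V) (i n : ℕ) (hi : f (Nat.pair i n) = 1)
    (v0 : ℕ → LaurentSeries (ZMod p)) : Sat (OO p) (psi p φ cc V n) v0 := by
  obtain ⟨x, hx⟩ : ∃ x, x = Nat.pair i n := ⟨_, rfl⟩
  obtain ⟨W, hW1, hW2, hW3⟩ := hrec x
  rw [hx, hi, ← hx] at hW2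
  obtain ⟨v, hfin, hN⟩ := hunb (tower k x + cc + x + 2)
  obtain ⟨S, hSdef⟩ : ∃ S : Set (LaurentSeries (ZMod p)),
      S = {x | Sat (OO p) φ (update v 0 x) ∨ x = 0 ∨ x = 1} := ⟨_, rfl⟩
  have hSfin : S.Finite := by
    rw [hSdef]
    refine (hfin.union (Set.toFinite {0, 1})).subset ?_
    rintro y (hy | hy | hy)
    · exact Or.inl hy
    · exact Or.inr (Or.inl hy)
    · exact Or.inr (Or.inr hy)
  have hScard : (DefSet p φ v).ncard ≤ S.ncard := by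
    refine Set.ncard_le_ncard ?_ hSfin
    rw [hSdef]
    exact fun y hy => Or.inl hy
  obtain ⟨u, w, l, e, he, hC⟩ := lev_good p hRES hCOD S hSfin
  obtain ⟨N, hNdef⟩ : ∃ N, N = S.ncard := ⟨_, rfl⟩
  rw [← hNdef] at he hScard
  obtain ⟨w', hw'⟩ : ∃ w' : ℕ → LaurentSeries (ZMod p), w' = fun j => if j < V then
      (if j = 64 then tt p else if j = 65 then u else if j = 66 then w else if j = 67 then l
        else v (j - 100)) else v0 j := ⟨_, rfl⟩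
  refine (hREN.2 _ (OO p) V _ _ v0).2 ⟨w', fun j hj => ?_, ?_⟩
  · rw [hw']
    beta_reduce
    rw [if_neg (by omega)]
  have w64 : w' 64 = tt p := by
    rw [hw']
    beta_reduce
    rw [if_pos (by omega), if_pos rfl]
  have w65 : w' 65 = u := by
    rw [hw']
    beta_reduce
    rw [if_pos (by omega), if_neg (by norm_num), if_pos rfl]
  have w66 : w' 66 = w := by
    rw [hw']
    beta_reduce
    rw [if_pos (by omega), if_neg (by norm_num), if_neg (by norm_num), if_pos rfl]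
  have w67 : w' 67 = l := by
    rw [hw']
    beta_reduce
    rw [if_pos (by omega), if_neg (by norm_num), if_neg (by norm_num), if_neg (by norm_num),
      if_pos rfl]
  have w100 : ∀ j, j < V0 → w' (j + 100) = v j := by
    intro j hj
    rw [hw']
    beta_reduce
    rw [if_pos (by omega), if_neg (by omega), if_neg (by omega), if_neg (by omega),
      if_neg (by omega), Nat.add_sub_cancel]
  obtain ⟨Q, hQdef⟩ : ∃ Q : (ℕ → LaurentSeries (ZMod p)) → Prop,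
      Q = fun v' => ∀ i, 64 ≤ i → v' i = w' i := ⟨_, rfl⟩
  have hQ : Keeps Q := by
    rw [hQdef]
    exact keeps_of w'
  have hS : ∀ v', Q v' → (Sat (OO p) (ren sg φ) v' ∨ v' 0 = 0 ∨ v' 0 = 1 ↔ v' 0 ∈ S) := by
    intro v' hv'
    rw [hQdef] at hv'
    have h1 : Sat (OO p) φ (v' ∘ sg) ↔ Sat (OO p) φ (update v 0 (v' 0)) := by
      refine sat_agree (OO p) φ hV0 _ _ fun j hj => ?_
      by_cases hj0 : j = 0
      · subst hj0
        simp [sg]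
      · rw [update_of_ne hj0]
        show v' (sg j) = _
        unfold sg
        rw [if_neg hj0, hv' _ (by omega), w100 j hj]
    rw [hREN.1 _ _ sg sg_inj, h1, hSdef]
    rfl
  have hR := hFML _ (OO p) p (ren sg φ) S (tt p) u w l Q hQ (by
    intro v' hv'
    rw [hQdef] at hv'
    exact ⟨(hv' _ (by norm_num)).trans w64, (hv' _ (by norm_num)).trans w65,
      (hv' _ (by norm_num)).trans w66, (hv' _ (by norm_num)).trans w67⟩) hS
  have hF : Func (lev S (tt p) p u w l) := lev_func _ _ _ _ _ _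
  have hD : ∀ x, (lev S (tt p) p u w l).D x ↔ x ∈ S := fun x => Iff.rfl
  have hL1 : ∀ a b, (lev S (tt p) p u w l).L a b → a ∈ S ∧ b ∈ S := fun a b h => ⟨h.1, h.2.1⟩
  obtain ⟨M, hM⟩ : ∃ M, M = lev S (tt p) p u w l := ⟨_, rfl⟩
  rw [← hM] at hR he hC hF hD hL1
  obtain ⟨hR', hR2⟩ := hSEMA _ _ Q _ M hQ hR n
  have hB := hSEMB _ _ Q _ M n cc hQ hR' hR2 w' (by rw [hQdef]; exact fun _ _ => rfl)
  have hnx : n ≤ x := by rw [hx]; exact Nat.right_le_pair _ _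
  have hcc : cc < N := by omega
  have h1N : 1 < N := by omega
  have hxN : x < N := by omega
  have hnN : n < N := by omega
  have h0S : M.D 0 := (hD 0).2 (by rw [hSdef]; exact Or.inr (Or.inl rfl))
  have h1S : M.D 1 := (hD 1).2 (by rw [hSdef]; exact Or.inr (Or.inr rfl))
  obtain ⟨hP, hU⟩ := hUNI2 _ M N e 0 1 hF hC he h0S h1S zero_ne_one
  refine ⟨hB.1.2 ?_, hB.2.1.2 ⟨?_, ?_, ?_⟩, hB.2.2.2 ?_⟩
  · obtain ⟨b, c, hb, hc, h4, h5⟩ := (hFIN p S).1 hSfin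
    exact ⟨b, c, hb, hc, fun x hx => h4 x ((hD x).1 hx),
      fun x y hx hy => h5 x y ((hD x).1 hx) ((hD y).1 hy)⟩
  · intro a ha
    obtain ⟨h1, -⟩ := hL1 _ _ ha
    obtain ⟨j, hj, rfl⟩ := (he.1 _).1 ((hD _).2 h1)
    exact lt_irrefl _ ((he.2 j j hj hj).1 ha)
  · intro a b c hab hbc
    obtain ⟨h1, h2⟩ := hL1 _ _ hab
    obtain ⟨-, h3⟩ := hL1 _ _ hbc
    obtain ⟨j1, hj1, rfl⟩ := (he.1 _).1 ((hD _).2 h1)
    obtain ⟨j2, hj2, rfl⟩ := (he.1 _).1 ((hD _).2 h2)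
    obtain ⟨j3, hj3, rfl⟩ := (he.1 _).1 ((hD _).2 h3)
    exact (he.2 _ _ hj1 hj3).2 (((he.2 _ _ hj1 hj2).1 hab).trans ((he.2 _ _ hj2 hj3).1 hbc))
  · intro a b ha hb
    obtain ⟨j1, hj1, rfl⟩ := (he.1 _).1 ha
    obtain ⟨j2, hj2, rfl⟩ := (he.1 _).1 hb
    rcases lt_trichotomy j1 j2 with h | h | h
    · exact Or.inr (Or.inl ((he.2 _ _ hj1 hj2).2 h))
    · exact Or.inl (by rw [h])
    · exact Or.inr (Or.inr ((he.2 _ _ hj2 hj1).2 h))
  · refine ⟨e n, (Pool.Agent.Y972.EL.num_iff he n _).2 ⟨hnN, rfl⟩, e i, e x, ?_, e cc,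
      (Pool.Agent.Y972.EL.num_iff he cc _).2 ⟨hcc, rfl⟩, e 1,
      (Pool.Agent.Y972.EL.num_iff he 1 _).2 ⟨h1N, rfl⟩, ?_⟩
    · rw [hx] at hxN ⊢
      exact hP i n hxN
    · refine hU cc x 1 hcc hxN h1N ⟨W, hW1, hW2, fun s hs => ?_⟩
      have := hW3 s hs
      omega

/-- the main theorem: uniform finiteness -/
theorem uniform (hRES : S_RES) (hCOD : S_COD) (hREN : S_REN) (hFML : S_FML) (hSEMA : S_SEMA)
    (hSEMB : S_SEMB) (hFIN : S_FIN) (hUNI1 : S_UNI1) (hUNI2 : S_UNI2) (hHALT : S_HALT)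
    (hCMP : S_CMP) (hCLO : S_CLO) (hCINJ : ∀ φ ψ : Fm, φ.code = ψ.code → φ = ψ)
    (p : ℕ) [Fact p.Prime]
    (hdec : ComputablePred fun m : ℕ => ∃ ψ : Fm, ψ.code = m ∧ ψ.fv = ∅ ∧ InT p ψ) (φ : Fm) :
    ∃ N : ℕ, ∀ v, (DefSet p φ v).Finite → (DefSet p φ v).ncard ≤ N := by
  classical
  by_contra hcon
  push Not at hcon
  have hunb : ∀ N : ℕ, ∃ v, (DefSet p φ v).Finite ∧ N < (DefSet p φ v).ncard := hcon
  obtain ⟨P, f, cc, k, hPn, hrec, hPf⟩ := hHALT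
  obtain ⟨V0, hV0⟩ := hCLO.1 φ
  obtain ⟨V1, hV1⟩ := hCLO.1 (ren sg φ)
  obtain ⟨V, hVdef⟩ : ∃ V, V = V0 + V1 + 168 := ⟨_, rfl⟩
  have hV1' : Below V (ren sg φ) := hV1 V (by omega)
  apply hPn
  have hcode : ∀ n, (psi p φ cc V n).code =
      (UT cc V).cd ((cdT TA1)^[n] (cdT TA0 (st (hU p (ren sg φ))))) := by
    intro n
    rw [psi, code_inst, hU', st_iter,
      st_stepH]
  have hcomp : Computable fun n : ℕ => (psi p φ cc V n).code := by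
    simp only [hcode]
    exact hCMP (UT cc V) TA1 _
  have hclosed : ∀ n, (psi p φ cc V n).fv = ∅ := by
    intro n
    obtain ⟨c1, c2, c3, c4⟩ := hCLO.2.2.2.2 p cc V (ren sg φ) (by omega) hV1'
    refine hCLO.2.2.1 V _ _ c4 ?_
    refine hCLO.2.2.2.1 V n TA1 _ c3 fun i => ?_
    exact hCLO.2.1 V _ _ (c2 i) c1
  have hiff : ∀ n, P n ↔ ∃ ψ : Fm, ψ.code = (psi p φ cc V n).code ∧ ψ.fv = ∅ ∧ InT p ψ := by
    intro n
    rw [hPf n]
    constructor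
    · rintro ⟨i, hi⟩
      exact ⟨psi p φ cc V n, rfl, hclosed n, fun v0 => complete hRES hCOD hREN hFML hSEMA hSEMB
        hFIN hUNI2 p φ hrec hunb (hV0 V0 le_rfl) (by omega) i n hi v0⟩
    · rintro ⟨ψ, h1, -, h3⟩
      rw [hCINJ _ _ h1] at h3
      exact sound hREN hFML hSEMA hSEMB hFIN hUNI1 p φ hrec V n 0 (h3 0)
  obtain ⟨hd, hc⟩ := hdec
  refine ComputablePred.of_eq (p := fun n => ∃ ψ : Fm, ψ.code = (psi p φ cc V n).code ∧ ψ.fv = ∅ ∧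
    InT p ψ) ?_ fun n => (hiff n).symm
  exact ⟨fun n => hd _, hc.comp hcomp⟩

end Pool.Agent.Y924.UF
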