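import Pool.Agent.Y924.UF.Stm

/-! # Project UF, second part: arbitrary unary predicates -/

set_option autoImplicit false

namespace Pool.Agent.Y924.UF

open Function
open Pool.Agent.Y924.EL

/-- `1 + τ x ^ q` is a `q`-th power -/
def OT {K : Type} [CommRing K] (q : ℕ) (τ x : K) : Prop := ∃ y, y ^ q = 1 + τ * x ^ q

/-- `τ` is not of the form `c s ^ (p + 1)`, `c` a `(p - 1)`-st root of unity -/
def Gd {K : Type} [CommRing K] (p : ℕ) (τ : K) : Prop :=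
  ¬ ∃ s c : K, c ^ (p - 1) = 1 ∧ c * s ^ (p + 1) = τ

/-- UF-ROOT: Hensel -/
def S_ROOT : Prop := ∀ (p : ℕ) [Fact p.Prime] (a : LaurentSeries (ZMod p)),
  (∀ n : ℤ, n < 0 → a.coeff n = 0) → a.coeff 0 = 1 → ∃ y, y ^ (p + 1) = a

/-- UF-VAL: the valuation ring -/
def S_VAL : Prop := ∀ (p : ℕ) [Fact p.Prime],
  (∀ z, z ∈ OO p ↔ OT (p + 1) (HahnSeries.single (1 : ℤ) (1 : ZMod p)) z) ∧
    Gd p (HahnSeries.single (1 : ℤ) (1 : ZMod p))

/-- UF-FIN2 -/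
def S_FIN2 : Prop := ∀ (p : ℕ) [Fact p.Prime] (τ : LaurentSeries (ZMod p)), Gd p τ →
  ∀ S : Set (LaurentSeries (ZMod p)), (∃ b c : LaurentSeries (ZMod p), b ≠ 0 ∧ c ≠ 0 ∧
    (∀ x, x ∈ S → ∃ z, OT (p + 1) τ z ∧ c * z = x) ∧
    ∀ x y, x ∈ S → y ∈ S → (∃ z y', OT (p + 1) τ z ∧ b * z = y' ∧ y' + y = x) → x = y) →
  S.Finite

/-- the set defined by the formula in the variable `x_0` with the parameters `v`, in the field
with the unary predicate `P` -/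
def DefP {p : ℕ} (P : Set (LaurentSeries (ZMod p))) (φ : Fm) (v : ℕ → LaurentSeries (ZMod p))
    [Fact p.Prime] : Set (LaurentSeries (ZMod p)) :=
  {x | Sat P φ (update v 0 x)}

/-- UF-DISC2: from uniform finiteness to discrete sets, with an arbitrary unary predicate -/
def S_DISC2 : Prop := ∀ (p : ℕ) [Fact p.Prime] (P : Set (LaurentSeries (ZMod p))),
  (∀ φ : Fm, ∃ N : ℕ, ∀ v, (DefP P φ v).Finite → (DefP P φ v).ncard ≤ N) →
  ∀ (φ : Fm) (v : ℕ → LaurentSeries (ZMod p)),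
    (∀ x, x ∈ DefP P φ v → ∃ b : LaurentSeries (ZMod p), b ≠ 0 ∧
      ∀ y, y ∈ DefP P φ v → (∃ z, z ∈ OO p ∧ b * z + x = y) → y = x) →
    (DefP P φ v).Finite

/-- `1 + x_64 x_12 ^ q` is a `q`-th power -/
def OTF (q : ℕ) : Fm :=
  .ex 50 (.ex 51 (.ex 52 (.ex 53 (.ex 54 (.and (powC q 12 50) (.and (.mul 64 50 51)
    (.and (.one 52) (.and (.add 52 51 53) (powC q 54 53)))))))))

/-- `Gd p x_64` -/
def GdF (p : ℕ) : Fm :=
  .neg (.ex 50 (.ex 51 (.ex 52 (.ex 53 (.and (powC (p - 1) 51 53) (.and (.one 53)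
    (.and (powC (p + 1) 50 52) (.mul 51 52 64))))))))

open Pool.Agent.Y924.EL.Tp in
/-- finiteness of the domain, without the predicate -/
def FinT2 (p : ℕ) : Tp :=
  .and (.atom (GdF p))
    (.ex 13 (.ex 14 (.and (.neg (isZ 13)) (.and (.neg (isZ 14))
    (.and (all 10 (imp (cD 10) (.ex 12 (.and (.atom (OTF (p + 1))) (.atom (.mul 14 12 10))))))
      (all 10 (all 11 (imp (cD 10) (imp (cD 11)
        (imp (.ex 12 (.ex 15 (.and (.atom (OTF (p + 1))) (.and (.atom (.mul 13 12 15))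
          (.atom (.add 15 11 10)))))) (eqv 10 11)))))))))))

/-- the template of the final sentence -/
def UT2 (p cc V : ℕ) : Tp := exsT V (.and (FinT2 p) (.and OrdT (HBody cc)))

/-- UF-FINT: meaning of `FinT2`, and its variables -/
def S_FINT : Prop :=
  (∀ (K : Type) [CommRing K] (O : Set K) (Q : (ℕ → K) → Prop) (h : Fin 5 → Fm) (M : Lev K)
    (p : ℕ) (τ : K), Keeps Q → (∀ v, Q v → v 64 = τ) → RepQ O Q h M → ∀ v, Q v →
    (Sat O ((FinT2 p).inst h) v ↔ Gd p τ ∧ ∃ b c : K, b ≠ 0 ∧ c ≠ 0 ∧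
      (∀ x, M.D x → ∃ z, OT (p + 1) τ z ∧ c * z = x) ∧
      ∀ x y, M.D x → M.D y → (∃ z y', OT (p + 1) τ z ∧ b * z = y' ∧ y' + y = x) → x = y)) ∧
  ∀ (p cc V : ℕ), 68 ≤ V → BelowT V (.and (FinT2 p) (.and OrdT (HBody cc)))

end Pool.Agent.Y924.UF
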