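import Pool.Agent.Y924.UF.Main
import Pool.Agent.Y924.UF.Stm2

/-! # Project UF: the reduction with an arbitrary unary predicate -/

set_option autoImplicit false

namespace Pool.Agent.Y924.UF

open Function
open Pool.Agent.Y924.EL

/-- the sentence is true in the field `F_p((t))` with the unary predicate `P` -/
def InP (p : ℕ) [Fact p.Prime] (P : Set (LaurentSeries (ZMod p))) (φ : Fm) : Prop :=
  ∀ v : ℕ → LaurentSeries (ZMod p), Sat P φ v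

/-- the sentence with the number `n` -/
def psi2 (p : ℕ) (φ : Fm) (cc V n : ℕ) : Fm := (UT2 p cc V).inst (hU' p (ren sg φ) n)

theorem sound2 (hREN : S_REN) (hFML : S_FML) (hSEMA : S_SEMA) (hSEMB : S_SEMB)
    (hFIN2 : S_FIN2) (hFINT : S_FINT) (hUNI1 : S_UNI1) (p : ℕ) [Fact p.Prime]
    (P : Set (LaurentSeries (ZMod p))) (φ : Fm) {f : ℕ → ℕ} {cc k : ℕ}
    (hrec : ∀ x : ℕ, ∃ W : Set ℕ, Closed W ∧ tr cc x (f x) ∈ W ∧ ∀ s ∈ W, s < tower k x)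
    (V n : ℕ) (v0 : ℕ → LaurentSeries (ZMod p)) (h : Sat P (psi2 p φ cc V n) v0) :
    ∃ i, f (Nat.pair i n) = 1 := by
  obtain ⟨w, -, hw⟩ := (hREN.2 _ P V _ _ v0).1 h
  obtain ⟨Q, hQdef⟩ : ∃ Q : (ℕ → LaurentSeries (ZMod p)) → Prop,
      Q = fun v' => ∀ i, 64 ≤ i → v' i = w i := ⟨_, rfl⟩
  have hQ : Keeps Q := by
    rw [hQdef]
    exact keeps_of w
  obtain ⟨S, hSdef⟩ : ∃ S : Set (LaurentSeries (ZMod p)),
      S = {x | Sat P φ (update (w ∘ sg) 0 x) ∨ x = 0 ∨ x = 1} := ⟨_, rfl⟩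
  have hS : ∀ v', Q v' → (Sat P (ren sg φ) v' ∨ v' 0 = 0 ∨ v' 0 = 1 ↔ v' 0 ∈ S) := by
    intro v' hv'
    rw [hQdef] at hv'
    rw [hREN.1 _ _ sg sg_inj, comp_sg w v' hv', hSdef]
    rfl
  have hR := hFML _ P p (ren sg φ) S (w 64) (w 65) (w 66) (w 67) Q hQ (by
    intro v' hv'
    rw [hQdef] at hv'
    exact ⟨hv' _ (by norm_num), hv' _ (by norm_num), hv' _ (by norm_num), hv' _ (by norm_num)⟩) hS
  obtain ⟨M, hM⟩ : ∃ M, M = lev S (w 64) p (w 65) (w 66) (w 67) := ⟨_, rfl⟩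
  rw [← hM] at hR
  have hF : Func M := by
    rw [hM]
    exact lev_func _ _ _ _ _ _
  have hD : ∀ x, M.D x ↔ x ∈ S := fun x => by rw [hM]; rfl
  obtain ⟨hR', hR2⟩ := hSEMA _ _ Q _ M hQ hR n
  have hB := hSEMB _ _ Q _ M n cc hQ hR' hR2 w (by rw [hQdef]; exact fun _ _ => rfl)
  obtain ⟨h1, h2, h3⟩ := hw
  have hFT := hFINT.1 _ P Q _ M p (w 64) hQ (by
    intro v' hv'
    rw [hQdef] at hv'
    exact hv' _ le_rfl) hR' w (by rw [hQdef]; exact fun _ _ => rfl)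
  have hfin : S.Finite := by
    obtain ⟨hgd, b, c, hb, hc, h4, h5⟩ := hFT.1 h1
    exact hFIN2 p (w 64) hgd S ⟨b, c, hb, hc, fun x hx => h4 x ((hD x).2 hx),
      fun x y hx hy => h5 x y ((hD x).2 hx) ((hD y).2 hy)⟩
  obtain ⟨h6, h7, h8⟩ := hB.2.1.1 h2
  obtain ⟨e, he⟩ := enum_of_order M S hfin hD h6 h7 h8
  obtain ⟨a, ha, m, x, hx, g, hg, y, hy, hU⟩ := hB.2.2.1 h3
  obtain ⟨hn, rfl⟩ := (Pool.Agent.Y972.EL.num_iff he n a).1 ha
  obtain ⟨hP, hU1⟩ := hUNI1 _ M _ e 1 hF he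
  obtain ⟨i, j, hij, rfl, hj, rfl⟩ := hP _ _ _ hx
  have hjn : n = j := Pool.Agent.Y972.EL.enum_inj he hn
    (lt_of_le_of_lt (Nat.right_le_pair i j) hij) hj
  subst hjn
  obtain ⟨hcc, rfl⟩ := (Pool.Agent.Y972.EL.num_iff he cc g).1 hg
  obtain ⟨h1N, rfl⟩ := (Pool.Agent.Y972.EL.num_iff he 1 y).1 hy
  obtain ⟨W, hW1, hW2, -⟩ := hU1 cc (Nat.pair i n) 1 hcc hij h1N hU
  obtain ⟨W', hW'1, hW'2, -⟩ := hrec (Nat.pair i n)
  exact ⟨i, Pool.Agent.Y151.EL.t_UNIQ W' W cc _ _ _ hW'1 hW1 hW'2 hW2⟩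

theorem complete2 (hRES : S_RES) (hCOD : S_COD) (hREN : S_REN) (hFML : S_FML) (hSEMA : S_SEMA)
    (hSEMB : S_SEMB) (hFIN : S_FIN) (hVAL : S_VAL) (hFINT : S_FINT) (hUNI2 : S_UNI2) (p : ℕ)
    [Fact p.Prime] (P : Set (LaurentSeries (ZMod p))) (φ : Fm)
    {f : ℕ → ℕ} {cc k : ℕ}
    (hrec : ∀ x : ℕ, ∃ W : Set ℕ, Closed W ∧ tr cc x (f x) ∈ W ∧ ∀ s ∈ W, s < tower k x)
    (hunb : ∀ N : ℕ, ∃ v, (DefP P φ v).Finite ∧ N < (DefP P φ v).ncard)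
    {V0 V : ℕ} (hV0 : Below V0 φ) (hV : V0 + 168 ≤ V) (i n : ℕ) (hi : f (Nat.pair i n) = 1)
    (v0 : ℕ → LaurentSeries (ZMod p)) : Sat P (psi2 p φ cc V n) v0 := by
  obtain ⟨x, hx⟩ : ∃ x, x = Nat.pair i n := ⟨_, rfl⟩
  obtain ⟨W, hW1, hW2, hW3⟩ := hrec x
  rw [hx, hi, ← hx] at hW2
  obtain ⟨v, hfin, hN⟩ := hunb (tower k x + cc + x + 2)
  obtain ⟨S, hSdef⟩ : ∃ S : Set (LaurentSeries (ZMod p)),
      S = {x | Sat P φ (update v 0 x) ∨ x = 0 ∨ x = 1} := ⟨_, rfl⟩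
  have hSfin : S.Finite := by
    rw [hSdef]
    refine (hfin.union (Set.toFinite {0, 1})).subset ?_
    rintro y (hy | hy | hy)
    · exact Or.inl hy
    · exact Or.inr (Or.inl hy)
    · exact Or.inr (Or.inr hy)
  have hScard : (DefP P φ v).ncard ≤ S.ncard := by
    refine Set.ncard_le_ncard ?_ hSfin
    rw [hSdef]
    exact fun y hy => Or.inl hy
  obtain ⟨u, w, l, e, he, hC⟩ := lev_good p hRES hCOD S hSfin
  obtain ⟨N, hNdef⟩ : ∃ N, N = S.ncard := ⟨_, rfl⟩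
  rw [← hNdef] at he hScard
  obtain ⟨w', hw'⟩ : ∃ w' : ℕ → LaurentSeries (ZMod p), w' = fun j => if j < V then
      (if j = 64 then tt p else if j = 65 then u else if j = 66 then w else if j = 67 then l
        else v (j - 100)) else v0 j := ⟨_, rfl⟩
  refine (hREN.2 _ P V _ _ v0).2 ⟨w', fun j hj => ?_, ?_⟩
  · rw [hw']
    beta_reduce
    rw [if_neg (by omega)]
  have w64 : w' 64 = tt p := by
    rw [hw']
    beta_reduce
    rw [if_pos (by omega), if_pos rfl]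
  have w65 : w' 65 = u := by
    rw [hw']
    beta_reduce
    rw [if_pos (by omega), if_neg (by norm_num), if_pos rfl]
  have w66 : w' 66 = w := by
    rw [hw']
    beta_reduce
    rw [if_pos (by omega), if_neg (by norm_num), if_neg (by norm_num), if_pos rfl]
  have w67 : w' 67 = l := by
    rw [hw']
    beta_reduce
    rw [if_pos (by omega), if_neg (by norm_num), if_neg (by norm_num), if_neg (by norm_num),
      if_pos rfl]
  have w100 : ∀ j, j < V0 → w' (j + 100) = v j := by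
    intro j hj
    rw [hw']
    beta_reduce
    rw [if_pos (by omega), if_neg (by omega), if_neg (by omega), if_neg (by omega),
      if_neg (by omega), Nat.add_sub_cancel]
  obtain ⟨Q, hQdef⟩ : ∃ Q : (ℕ → LaurentSeries (ZMod p)) → Prop,
      Q = fun v' => ∀ i, 64 ≤ i → v' i = w' i := ⟨_, rfl⟩
  have hQ : Keeps Q := by
    rw [hQdef]
    exact keeps_of w'
  have hS : ∀ v', Q v' → (Sat P (ren sg φ) v' ∨ v' 0 = 0 ∨ v' 0 = 1 ↔ v' 0 ∈ S) := by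
    intro v' hv'
    rw [hQdef] at hv'
    have h1 : Sat P φ (v' ∘ sg) ↔ Sat P φ (update v 0 (v' 0)) := by
      refine sat_agree P φ hV0 _ _ fun j hj => ?_
      by_cases hj0 : j = 0
      · subst hj0
        simp [sg]
      · rw [update_of_ne hj0]
        show v' (sg j) = _
        unfold sg
        rw [if_neg hj0, hv' _ (by omega), w100 j hj]
    rw [hREN.1 _ _ sg sg_inj, h1, hSdef]
    rfl
  have hR := hFML _ P p (ren sg φ) S (tt p) u w l Q hQ (by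
    intro v' hv'
    rw [hQdef] at hv'
    exact ⟨(hv' _ (by norm_num)).trans w64, (hv' _ (by norm_num)).trans w65,
      (hv' _ (by norm_num)).trans w66, (hv' _ (by norm_num)).trans w67⟩) hS
  have hF : Func (lev S (tt p) p u w l) := lev_func _ _ _ _ _ _
  have hD : ∀ x, (lev S (tt p) p u w l).D x ↔ x ∈ S := fun x => Iff.rfl
  have hL1 : ∀ a b, (lev S (tt p) p u w l).L a b → a ∈ S ∧ b ∈ S := fun a b h => ⟨h.1, h.2.1⟩
  obtain ⟨M, hM⟩ : ∃ M, M = lev S (tt p) p u w l := ⟨_, rfl⟩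
  rw [← hM] at hR he hC hF hD hL1
  obtain ⟨hR', hR2⟩ := hSEMA _ _ Q _ M hQ hR n
  have hB := hSEMB _ _ Q _ M n cc hQ hR' hR2 w' (by rw [hQdef]; exact fun _ _ => rfl)
  have hnx : n ≤ x := by rw [hx]; exact Nat.right_le_pair _ _
  have hcc : cc < N := by omega
  have h1N : 1 < N := by omega
  have hxN : x < N := by omega
  have hnN : n < N := by omega
  have h0S : M.D 0 := (hD 0).2 (by rw [hSdef]; exact Or.inr (Or.inl rfl))
  have h1S : M.D 1 := (hD 1).2 (by rw [hSdef]; exact Or.inr (Or.inr rfl))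
  obtain ⟨hP, hU⟩ := hUNI2 _ M N e 0 1 hF hC he h0S h1S zero_ne_one
  have hFT := hFINT.1 _ P Q _ M p (tt p) hQ (by
    intro v' hv'
    rw [hQdef] at hv'
    exact (hv' _ le_rfl).trans w64) hR' w' (by rw [hQdef]; exact fun _ _ => rfl)
  obtain ⟨hV1, hV2⟩ := hVAL p
  refine ⟨hFT.2 ⟨hV2, ?_⟩, hB.2.1.2 ⟨?_, ?_, ?_⟩, hB.2.2.2 ?_⟩
  · obtain ⟨b, c, hb, hc, h4, h5⟩ := (hFIN p S).1 hSfin
    refine ⟨b, c, hb, hc, fun x hx => ?_, fun x y hx hy => ?_⟩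
    · obtain ⟨z, hz, hz'⟩ := h4 x ((hD x).1 hx)
      exact ⟨z, (hV1 z).1 hz, hz'⟩
    · rintro ⟨z, y', hz, hz', hz''⟩
      exact h5 x y ((hD x).1 hx) ((hD y).1 hy) ⟨z, y', (hV1 z).2 hz, hz', hz''⟩
  · intro a ha
    obtain ⟨h1, -⟩ := hL1 _ _ ha
    obtain ⟨j, hj, rfl⟩ := (he.1 _).1 ((hD _).2 h1)
    exact lt_irrefl _ ((he.2 j j hj hj).1 ha)
  · intro a b c hab hbc
    obtain ⟨h1, h2⟩ := hL1 _ _ hab
    obtain ⟨-, h3⟩ := hL1 _ _ hbc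
    obtain ⟨j1, hj1, rfl⟩ := (he.1 _).1 ((hD _).2 h1)
    obtain ⟨j2, hj2, rfl⟩ := (he.1 _).1 ((hD _).2 h2)
    obtain ⟨j3, hj3, rfl⟩ := (he.1 _).1 ((hD _).2 h3)
    exact (he.2 _ _ hj1 hj3).2 (((he.2 _ _ hj1 hj2).1 hab).trans ((he.2 _ _ hj2 hj3).1 hbc))
  · intro a b ha hb
    obtain ⟨j1, hj1, rfl⟩ := (he.1 _).1 ha
    obtain ⟨j2, hj2, rfl⟩ := (he.1 _).1 hb
    rcases lt_trichotomy j1 j2 with h | h | h
    · exact Or.inr (Or.inl ((he.2 _ _ hj1 hj2).2 h))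
    · exact Or.inl (by rw [h])
    · exact Or.inr (Or.inr ((he.2 _ _ hj2 hj1).2 h))
  · refine ⟨e n, (Pool.Agent.Y972.EL.num_iff he n _).2 ⟨hnN, rfl⟩, e i, e x, ?_, e cc,
      (Pool.Agent.Y972.EL.num_iff he cc _).2 ⟨hcc, rfl⟩, e 1,
      (Pool.Agent.Y972.EL.num_iff he 1 _).2 ⟨h1N, rfl⟩, ?_⟩
    · rw [hx] at hxN ⊢
      exact hP i n hxN
    · refine hU cc x 1 hcc hxN h1N ⟨W, hW1, hW2, fun s hs => ?_⟩
      have := hW3 s hs
      omega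

/-- the main theorem with an arbitrary predicate: uniform finiteness -/
theorem uniform2 (hRES : S_RES) (hCOD : S_COD) (hREN : S_REN) (hFML : S_FML) (hSEMA : S_SEMA)
    (hSEMB : S_SEMB) (hFIN : S_FIN) (hFIN2 : S_FIN2) (hVAL : S_VAL) (hFINT : S_FINT)
    (hUNI1 : S_UNI1) (hUNI2 : S_UNI2) (hHALT : S_HALT)
    (hCMP : S_CMP) (hCLO : S_CLO) (hCINJ : ∀ φ ψ : Fm, φ.code = ψ.code → φ = ψ)
    (p : ℕ) [Fact p.Prime] (P : Set (LaurentSeries (ZMod p)))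
    (hre : REPred fun m : ℕ => ∃ ψ : Fm, ψ.code = m ∧ ψ.fv = ∅ ∧ InP p P ψ) (φ : Fm) :
    ∃ N : ℕ, ∀ v, (DefP P φ v).Finite → (DefP P φ v).ncard ≤ N := by
  classical
  by_contra hcon
  push Not at hcon
  have hunb : ∀ N : ℕ, ∃ v, (DefP P φ v).Finite ∧ N < (DefP P φ v).ncard := hcon
  obtain ⟨Pr, f, cc, k, hPn, hrec, hPf⟩ := hHALT
  obtain ⟨V0, hV0⟩ := hCLO.1 φ
  obtain ⟨V1, hV1⟩ := hCLO.1 (ren sg φ)
  obtain ⟨V, hVdef⟩ : ∃ V, V = V0 + V1 + 168 := ⟨_, rfl⟩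
  have hV1' : Below V (ren sg φ) := hV1 V (by omega)
  apply hPn
  have hcode : ∀ n, (psi2 p φ cc V n).code =
      (UT2 p cc V).cd ((cdT TA1)^[n] (cdT TA0 (st (hU p (ren sg φ))))) := by
    intro n
    rw [psi2, code_inst, hU', st_iter,
      st_stepH]
  have hcomp : Computable fun n : ℕ => (psi2 p φ cc V n).code := by
    simp only [hcode]
    exact hCMP (UT2 p cc V) TA1 _
  have hclosed : ∀ n, (psi2 p φ cc V n).fv = ∅ := by
    intro n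
    obtain ⟨c1, c2, c3, -⟩ := hCLO.2.2.2.2 p cc V (ren sg φ) (by omega) hV1'
    refine hCLO.2.2.1 V _ _ (hFINT.2 p cc V (by omega)) ?_
    refine hCLO.2.2.2.1 V n TA1 _ c3 fun i => ?_
    exact hCLO.2.1 V _ _ (c2 i) c1
  have hiff : ∀ n, Pr n ↔ ∃ ψ : Fm, ψ.code = (psi2 p φ cc V n).code ∧ ψ.fv = ∅ ∧ InP p P ψ := by
    intro n
    rw [hPf n]
    constructor
    · rintro ⟨i, hi⟩
      exact ⟨psi2 p φ cc V n, rfl, hclosed n, fun v0 => complete2 hRES hCOD hREN hFML hSEMA hSEMB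
        hFIN hVAL hFINT hUNI2 p P φ hrec hunb (hV0 V0 le_rfl) (by omega) i n hi v0⟩
    · rintro ⟨ψ, h1, -, h3⟩
      rw [hCINJ _ _ h1] at h3
      exact sound2 hREN hFML hSEMA hSEMB hFIN2 hFINT hUNI1 p P φ hrec V n 0 (h3 0)
  have hiff2 : ∀ n, ¬ Pr n ↔ ∃ ψ : Fm, ψ.code = Nat.pair 5 (psi2 p φ cc V n).code ∧ ψ.fv = ∅ ∧
      InP p P ψ := by
    intro n
    constructor
    · intro hn
      exact ⟨.neg (psi2 p φ cc V n), rfl, hclosed n, fun v0 hs => hn ((hPf n).2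
        (sound2 hREN hFML hSEMA hSEMB hFIN2 hFINT hUNI1 p P φ hrec V n v0 hs))⟩
    · rintro ⟨ψ, h1, -, h3⟩ hn
      have h4 : ψ = .neg (psi2 p φ cc V n) := hCINJ _ _ h1
      rw [h4] at h3
      obtain ⟨i, hi⟩ := (hPf n).1 hn
      exact h3 0 (complete2 hRES hCOD hREN hFML hSEMA hSEMB
        hFIN hVAL hFINT hUNI2 p P φ hrec hunb (hV0 V0 le_rfl) (by omega) i n hi 0)
  rw [ComputablePred.computable_iff_re_compl_re']
  constructor
  · have h1 : REPred fun n => ∃ ψ : Fm, ψ.code = (psi2 p φ cc V n).code ∧ ψ.fv = ∅ ∧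
        InP p P ψ := Partrec.comp hre hcomp
    exact REPred.of_eq h1 fun n => (hiff n).symm
  · have hcomp2 : Computable fun n : ℕ => Nat.pair 5 (psi2 p φ cc V n).code :=
      (Primrec₂.natPair.to_comp).comp (Computable.const 5) hcomp
    have h1 : REPred fun n => ∃ ψ : Fm, ψ.code = Nat.pair 5 (psi2 p φ cc V n).code ∧
        ψ.fv = ∅ ∧ InP p P ψ := Partrec.comp hre hcomp2
    exact REPred.of_eq h1 fun n => (hiff2 n).symm

end Pool.Agent.Y924.UF
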