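import Pool.Agent.Y924.UF.Stm2
import Pool.Agent.Y924.UF.Lem

/-! # Project UF, third part: interpretation of arithmetic

Numbers are the numbers of elements of finite sets of a definable family. -/

set_option autoImplicit false

namespace Pool.Agent.Y924.UF

open Function
open Pool.Agent.Y924.EL

/-! ## Counting by coded relations -/

section

variable {K : Type}

/-- `R` is a bijection between `X` and `Y` -/
def Bij (R : K → K → Prop) (X Y : Set K) : Prop :=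
  (∀ a, a ∈ X → ∃ b, b ∈ Y ∧ R a b ∧ ∀ b', b' ∈ Y → R a b' → b' = b) ∧
    ∀ b, b ∈ Y → ∃ a, a ∈ X ∧ R a b ∧ ∀ a', a' ∈ X → R a' b → a' = a

/-- `(R, R')` is a bijection between `Z` and `X × Y` -/
def Prj (R R' : K → K → Prop) (X Y Z : Set K) : Prop :=
  (∀ c, c ∈ Z → (∃ a, a ∈ X ∧ R c a ∧ ∀ a', a' ∈ X → R c a' → a' = a) ∧
    ∃ b, b ∈ Y ∧ R' c b ∧ ∀ b', b' ∈ Y → R' c b' → b' = b) ∧
  ∀ a b, a ∈ X → b ∈ Y → ∃ c, c ∈ Z ∧ R c a ∧ R' c b ∧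
    ∀ c', c' ∈ Z → R c' a → R' c' b → c' = c

variable [CommRing K]

def CEq (p : ℕ) (X Y : Set K) : Prop := ∃ t u w s, Bij (BB t p u w s) X Y

def CAdd (p : ℕ) (X Y Z : Set K) : Prop := ∃ t u w s s' d,
  Bij (BB t p u w s) X {c | c ∈ Z ∧ BB t p u w d c c} ∧
    Bij (BB t p u w s') Y {c | c ∈ Z ∧ ¬ BB t p u w d c c}

def CMul (p : ℕ) (X Y Z : Set K) : Prop := ∃ t u w s s',
  Prj (BB t p u w s) (BB t p u w s') X Y Z

end

/-- all relations on finite sets are coded -/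
def S_CODE : Prop := ∀ (p : ℕ) [Fact p.Prime] (S : Set (LaurentSeries (ZMod p))), S.Finite →
  ∃ t u w : LaurentSeries (ZMod p), ∀ R : LaurentSeries (ZMod p) → LaurentSeries (ZMod p) → Prop,
    ∃ s : LaurentSeries (ZMod p), ∀ a ∈ S, ∀ b ∈ S, (BB t p u w s a b ↔ R a b)

def S_CEQ : Prop := ∀ (p : ℕ) [Fact p.Prime] (X Y : Set (LaurentSeries (ZMod p))),
  X.Finite → Y.Finite → (CEq p X Y ↔ X.ncard = Y.ncard)

def S_CADD : Prop := ∀ (p : ℕ) [Fact p.Prime] (X Y Z : Set (LaurentSeries (ZMod p))),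
  X.Finite → Y.Finite → Z.Finite → (CAdd p X Y Z ↔ X.ncard + Y.ncard = Z.ncard)

def S_CMUL : Prop := ∀ (p : ℕ) [Fact p.Prime] (X Y Z : Set (LaurentSeries (ZMod p))),
  X.Finite → Y.Finite → Z.Finite → (CMul p X Y Z ↔ X.ncard * Y.ncard = Z.ncard)

/-! ## Templates -/

open Pool.Agent.Y924.EL.Tp

/-- `x_a` belongs to the set of hole `k` -/
def cU (k : Fin 5) (a : ℕ) : Tp := call1 (.hole k) a

/-- the relation with the code `x_s` -/
def cR (p s a b : ℕ) : Tp := .atom (BFa p s a b)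

def TBij (p s : ℕ) (X Y : ℕ → Tp) : Tp :=
  .and (all 10 (imp (X 10) (.ex 11 (.and (Y 11) (.and (cR p s 10 11)
      (all 12 (imp (Y 12) (imp (cR p s 10 12) (eqv 12 11)))))))))
    (all 11 (imp (Y 11) (.ex 10 (.and (X 10) (.and (cR p s 10 11)
      (all 12 (imp (X 12) (imp (cR p s 12 11) (eqv 12 10)))))))))

def TEq (p : ℕ) : Tp := .ex 64 (.ex 65 (.ex 66 (.ex 67 (TBij p 67 (cU 0) (cU 1)))))

def TAdd (p : ℕ) : Tp := .ex 64 (.ex 65 (.ex 66 (.ex 67 (.ex 68 (.ex 69 (.and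
  (TBij p 67 (cU 0) fun a => .and (cU 2 a) (cR p 69 a a))
  (TBij p 68 (cU 1) fun a => .and (cU 2 a) (.neg (cR p 69 a a)))))))))

/-- `x_c` has exactly one image in the set of hole `k` under the relation with the code `x_s` -/
def TFn (p s a c : ℕ) (k : Fin 5) : Tp :=
  .ex a (.and (cU k a) (.and (cR p s c a) (all 13 (imp (cU k 13) (imp (cR p s c 13) (eqv 13 a))))))

def TOnto (p : ℕ) : Tp :=
  .ex 12 (.and (cU 2 12) (.and (cR p 67 12 10) (.and (cR p 68 12 11)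
    (all 13 (imp (cU 2 13) (imp (cR p 67 13 10) (imp (cR p 68 13 11) (eqv 13 12))))))))

def TMul (p : ℕ) : Tp := .ex 64 (.ex 65 (.ex 66 (.ex 67 (.ex 68 (.and
  (all 12 (imp (cU 2 12) (.and (TFn p 67 10 12 0) (TFn p 68 11 12 1))))
  (all 10 (all 11 (imp (cU 0 10) (imp (cU 1 11) (TOnto p))))))))))

def TOne : Tp := .ex 10 (.and (cU 0 10) (all 11 (imp (cU 0 11) (eqv 11 10))))

def TFin (p : ℕ) : Tp := .ex 64 (FinT2 p)

/-- `Q` is preserved by the updates of the first 100 variables -/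
def Keep100 {K : Type} (Q : (ℕ → K) → Prop) : Prop :=
  ∀ (v : ℕ → K) (i : ℕ) (a : K), i < 100 → Q v → Q (update v i a)

/-- holes 0, 1, 2 define the sets `X, Y, Z` if `Q` holds -/
def RepU {K : Type} [CommRing K] (O : Set K) (Q : (ℕ → K) → Prop) (h : Fin 5 → Fm)
    (X Y Z : Set K) : Prop :=
  ∀ v : ℕ → K, Q v → (Sat O (h 0) v ↔ v 0 ∈ X) ∧ (Sat O (h 1) v ↔ v 0 ∈ Y) ∧
    (Sat O (h 2) v ↔ v 0 ∈ Z)

def S_SEM1 : Prop := ∀ (K : Type) [CommRing K] (O : Set K) (Q : (ℕ → K) → Prop)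
  (h : Fin 5 → Fm) (X Y Z : Set K) (p : ℕ), Keep100 Q → RepU O Q h X Y Z → ∀ v, Q v →
    (Sat O ((TEq p).inst h) v ↔ CEq p X Y) ∧ (Sat O ((TAdd p).inst h) v ↔ CAdd p X Y Z)

def S_SEM2 : Prop := ∀ (K : Type) [CommRing K] (O : Set K) (Q : (ℕ → K) → Prop)
  (h : Fin 5 → Fm) (X Y Z : Set K) (p : ℕ), Keep100 Q → RepU O Q h X Y Z → ∀ v, Q v →
    (Sat O ((TMul p).inst h) v ↔ CMul p X Y Z) ∧
    (Sat O (TOne.inst h) v ↔ ∃ a, a ∈ X ∧ ∀ b, b ∈ X → b = a)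

def S_SEM3 : Prop := ∀ (K : Type) [CommRing K] (O : Set K) (Q : (ℕ → K) → Prop)
  (h : Fin 5 → Fm) (X Y Z : Set K) (p : ℕ), Keep100 Q → RepU O Q h X Y Z → ∀ v, Q v →
    (Sat O ((TFin p).inst h) v ↔ ∃ τ : K, Gd p τ ∧ ∃ b c : K, b ≠ 0 ∧ c ≠ 0 ∧
      (∀ x, x ∈ X → ∃ z, OT (p + 1) τ z ∧ c * z = x) ∧
      ∀ x y, x ∈ X → y ∈ X → (∃ z y', OT (p + 1) τ z ∧ b * z = y' ∧ y' + y = x) → x = y)

/-! ## The translation -/

/-- the variables of block `i` -/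
def sgB (V i j : ℕ) : ℕ := if j = 0 then 0 else 100 + V * i + j

def hh (V : ℕ) (φ : Fm) (i j k : ℕ) : Fin 5 → Fm :=
  ![ren (sgB V i) φ, ren (sgB V j) φ, ren (sgB V k) φ, .one 0, .one 0]

/-- existential quantification of `x_a, ..., x_(a + n - 1)` -/
def exR (a : ℕ) : ℕ → Fm → Fm
  | 0, χ => χ
  | n + 1, χ => .ex (a + n) (exR a n χ)

/-- basic formulas -/
def bas (τ : Tp) (V : ℕ) (φ : Fm) (i j k : ℕ) : Fm := exR 0 100 (τ.inst (hh V φ i j k))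

/-- translation of the formulas of arithmetic -/
def trF (p V : ℕ) (φ : Fm) : Fm → Fm
  | .eq i j => bas (TEq p) V φ i j i
  | .one i => bas TOne V φ i i i
  | .add i j k => bas (TAdd p) V φ i j k
  | .mul i j k => bas (TMul p) V φ i j k
  | .val _ => .ex 0 (.neg (.eq 0 0))
  | .neg ψ => .neg (trF p V φ ψ)
  | .and ψ χ => .and (trF p V φ ψ) (trF p V φ χ)
  | .ex i ψ => exR (100 + V * i) V (.and (bas (TFin p) V φ i i i) (trF p V φ ψ))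

/-- meaning of the basic formulas -/
def S_BAS : Prop := ∀ (p : ℕ) [Fact p.Prime] (P : Set (LaurentSeries (ZMod p))) (φ : Fm)
  (V i j k : ℕ) (v : ℕ → LaurentSeries (ZMod p)) (X : ℕ → Set (LaurentSeries (ZMod p))),
  (∀ i, X i = DefP P φ (v ∘ sgB V i)) →
  (Sat P (bas (TFin p) V φ i j k) v ↔ (X i).Finite) ∧
  ((X i).Finite → (Sat P (bas TOne V φ i j k) v ↔ (X i).ncard = 1)) ∧
  ((X i).Finite → (X j).Finite →
    (Sat P (bas (TEq p) V φ i j k) v ↔ (X i).ncard = (X j).ncard)) ∧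
  ((X i).Finite → (X j).Finite → (X k).Finite →
    (Sat P (bas (TAdd p) V φ i j k) v ↔ (X i).ncard + (X j).ncard = (X k).ncard) ∧
    (Sat P (bas (TMul p) V φ i j k) v ↔ (X i).ncard * (X j).ncard = (X k).ncard))

/-- semantics of `exR` -/
def S_EXR : Prop := ∀ (K : Type) [CommRing K] (O : Set K) (a n : ℕ) (χ : Fm) (v : ℕ → K),
  Sat O (exR a n χ) v ↔ ∃ w : ℕ → K, (∀ j, (j < a ∨ a + n ≤ j) → w j = v j) ∧ Sat O χ w

/-- all numbers occur as numbers of elements -/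
def Full {p : ℕ} [Fact p.Prime] (P : Set (LaurentSeries (ZMod p))) (φ : Fm) : Prop :=
  ∀ n : ℕ, ∃ v, (DefP P φ v).Finite ∧ (DefP P φ v).ncard = n

def S_FULL : Prop := ∀ (p : ℕ) [Fact p.Prime] (P : Set (LaurentSeries (ZMod p))) (φ : Fm),
  (∀ N : ℕ, ∃ v, (DefP P φ v).Finite ∧ N < (DefP P φ v).ncard) → ∃ φ', Full P φ'

/-- the main induction -/
def S_IND : Prop := ∀ (p : ℕ) [Fact p.Prime] (P : Set (LaurentSeries (ZMod p))) (φ : Fm) (V : ℕ),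
  Below V φ → Full P φ → ∀ (ψ : Fm) (v : ℕ → LaurentSeries (ZMod p)) (n : ℕ → ℕ),
    (∀ i, i ∈ ψ.fv → (DefP P φ (v ∘ sgB V i)).Finite ∧
      (DefP P φ (v ∘ sgB V i)).ncard = n i) →
    (Sat P (trF p V φ ψ) v ↔ Sat (∅ : Set ℕ) ψ n)

/-! ## Codes -/

def exRc (a : ℕ) : ℕ → ℕ → ℕ
  | 0, c => c
  | n + 1, c => Nat.pair 7 (Nat.pair (a + n) (exRc a n c))

/-- codes of basic formulas -/
def S_CMPA : Prop := ∀ (τ : Tp) (V : ℕ) (φ : Fm), Primrec fun m : ℕ =>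
  (bas τ V φ m.unpair.1 m.unpair.2.unpair.1 m.unpair.2.unpair.2).code

def S_CMPB : Prop := (∀ (a n : ℕ) (χ : Fm), (exR a n χ).code = exRc a n χ.code) ∧
  (∀ (a n : ℕ), Primrec fun c : ℕ => exRc a n c) ∧
  ∀ V : ℕ, Primrec fun m : ℕ => exRc (100 + V * m.unpair.1) V m.unpair.2

/-- recursion on codes -/
def S_REC : Prop := ∀ g0 g1 g2 g3 g4 g7 : ℕ → ℕ, Primrec g0 → Primrec g1 → Primrec g2 →
  Primrec g3 → Primrec g4 → Primrec g7 → ∃ F : ℕ → ℕ, Primrec F ∧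
    (∀ m, F (Nat.pair 0 m) = g0 m) ∧ (∀ m, F (Nat.pair 1 m) = g1 m) ∧
    (∀ m, F (Nat.pair 2 m) = g2 m) ∧ (∀ m, F (Nat.pair 3 m) = g3 m) ∧
    (∀ m, F (Nat.pair 4 m) = g4 m) ∧ (∀ m, F (Nat.pair 5 m) = Nat.pair 5 (F m)) ∧
    (∀ a b, F (Nat.pair 6 (Nat.pair a b)) = Nat.pair 6 (Nat.pair (F a) (F b))) ∧
    ∀ i m, F (Nat.pair 7 (Nat.pair i m)) = g7 (Nat.pair i (F m))

def S_TCMP : Prop := ∀ (p V : ℕ) (φ : Fm), ∃ F : ℕ → ℕ, Primrec F ∧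
  ∀ ψ : Fm, F ψ.code = (trF p V φ ψ).code

/-- closed sentences are translated by closed sentences -/
def S_TFV : Prop := ∀ (p V : ℕ) (φ : Fm), Below V φ → ∀ ψ : Fm, ψ.fv = ∅ →
  (trF p V φ ψ).fv = ∅

end Pool.Agent.Y924.UF
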