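import Pool.Agent.Y924.UF.Main2
import Pool.Agent.Y924.UF.Stm3

/-! # Project UF: true arithmetic is reducible to the theory, without uniform finiteness -/

set_option autoImplicit false

namespace Pool.Agent.Y924.UF

open Function
open Pool.Agent.Y924.EL

theorem interp (hCLO : S_CLO) (hFULL : S_FULL) (hIND : S_IND) (hTCMP : S_TCMP) (hTFV : S_TFV)
    (hCINJ : ∀ φ ψ : Fm, φ.code = ψ.code → φ = ψ) (p : ℕ) [Fact p.Prime]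
    (P : Set (LaurentSeries (ZMod p))) (φ : Fm)
    (hunb : ∀ N : ℕ, ∃ v, (DefP P φ v).Finite ∧ N < (DefP P φ v).ncard) :
    ∃ F : ℕ → ℕ, Primrec F ∧ ∀ ψ : Fm, ψ.fv = ∅ → ((∀ n : ℕ → ℕ, Sat (∅ : Set ℕ) ψ n) ↔
      ∃ χ : Fm, χ.code = F ψ.code ∧ χ.fv = ∅ ∧ InP p P χ) := by
  obtain ⟨φ', hfull⟩ := hFULL p P φ hunb
  obtain ⟨V, hV⟩ := hCLO.1 φ'
  obtain ⟨F, hF, hF2⟩ := hTCMP p V φ'
  refine ⟨F, hF, fun ψ hψ => ?_⟩
  have h1 : ∀ (v : ℕ → LaurentSeries (ZMod p)) (n : ℕ → ℕ),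
      (Sat P (trF p V φ' ψ) v ↔ Sat (∅ : Set ℕ) ψ n) := fun v n =>
    hIND p P φ' V (hV V le_rfl) hfull ψ v n fun i hi => by simp [hψ] at hi
  constructor
  · intro h
    exact ⟨_, (hF2 ψ).symm, hTFV p V φ' (hV V le_rfl) ψ hψ, fun v => (h1 v 0).2 (h 0)⟩
  · rintro ⟨χ, h2, -, h3⟩ n
    have h4 : χ = trF p V φ' ψ := hCINJ _ _ (h2.trans (hF2 ψ))
    rw [h4] at h3
    exact (h1 0 n).1 (h3 0)

end Pool.Agent.Y924.UF
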