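import Pool.Agent.Y924.UF.Defs

/-! # Project UF: statements of the parts -/

set_option autoImplicit false

namespace Pool.Agent.Y924.UF

open Function
open Pool.Agent.Y924.EL

/-- the valuation ring of `F_p((t))` -/
abbrev OO (p : ℕ) : Set (LaurentSeries (ZMod p)) :=
  Set.range (algebraMap (PowerSeries (ZMod p)) (LaurentSeries (ZMod p)))

/-- UF-RES: the constant coefficient -/
def S_RES : Prop := ∀ (p : ℕ) [Fact p.Prime] (z : LaurentSeries (ZMod p)),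
  HH (HahnSeries.single (1 : ℤ) (1 : ZMod p)) p z ↔ z.coeff 0 = 0

/-- UF-COD: coding of relations on finite sets -/
def S_COD : Prop := ∀ (p : ℕ) [Fact p.Prime] (K : Type) [Field K] [Infinite K]
  (lam : K →+ ZMod p), (∀ a : K, a ≠ 0 → ∃ s : K, lam (s * a) ≠ 0) → ∀ S : Finset K,
  ∃ u w : K, (∀ a ∈ S, u ≠ a ∧ w ≠ a) ∧ ∀ R : K → K → Prop, ∃ s : K, ∀ a ∈ S, ∀ b ∈ S,
    (lam (s / ((u - a) * (w - b))) = 0 ↔ R a b)

/-- UF-FIN: finiteness is definable -/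
def S_FIN : Prop := ∀ (p : ℕ) [Fact p.Prime] (S : Set (LaurentSeries (ZMod p))),
  S.Finite ↔ ∃ b c : LaurentSeries (ZMod p), b ≠ 0 ∧ c ≠ 0 ∧
    (∀ x, x ∈ S → ∃ z, z ∈ OO p ∧ c * z = x) ∧
    ∀ x y, x ∈ S → y ∈ S → (∃ z y', z ∈ OO p ∧ b * z = y' ∧ y' + y = x) → x = y

/-- UF-HALT -/
def S_HALT : Prop := ∃ (P : ℕ → Prop) (f : ℕ → ℕ) (cc k : ℕ), ¬ ComputablePred P ∧
  (∀ x : ℕ, ∃ W : Set ℕ, Closed W ∧ tr cc x (f x) ∈ W ∧ ∀ s ∈ W, s < tower k x) ∧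
  ∀ n, P n ↔ ∃ i, f (Nat.pair i n) = 1

/-- UF-CMP: computability of the codes -/
def S_CMP : Prop := ∀ (τ : Tp) (T : Fin 5 → Tp) (s0 : ℕ),
  Computable fun n : ℕ => τ.cd ((cdT T)^[n] s0)

/-- UF-CLO: closed sentences -/
def S_CLO : Prop :=
  (∀ φ : Fm, ∃ V, ∀ V', V ≤ V' → Below V' φ) ∧
  (∀ (V : ℕ) (τ : Tp) (h : Fin 5 → Fm), BelowT V τ → (∀ i, Below V (h i)) →
    Below V (τ.inst h)) ∧
  (∀ (V : ℕ) (τ : Tp) (h : Fin 5 → Fm), BelowT V τ → (∀ i, Below V (h i)) →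
    ((exsT V τ).inst h).fv = ∅) ∧
  (∀ (V n : ℕ) (T : Fin 5 → Tp) (h : Fin 5 → Fm), (∀ i, BelowT V (T i)) →
    (∀ i, Below V (h i)) → ∀ i, Below V ((stepH T)^[n] h i)) ∧
  (∀ (p cc V : ℕ) (φ' : Fm), 68 ≤ V → Below V φ' →
    (∀ i, Below V (hU p φ' i)) ∧ (∀ i, BelowT V (TA0 i)) ∧ (∀ i, BelowT V (TA1 i)) ∧
      BelowT V (.and FinT (.and OrdT (HBody cc))))

/-- UF-REN: semantics of renaming, and of the block of quantifiers -/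
def S_REN : Prop :=
  (∀ (K : Type) [CommRing K] (O : Set K) (σ : ℕ → ℕ), Injective σ → ∀ (φ : Fm) (v : ℕ → K),
    (Sat O (ren σ φ) v ↔ Sat O φ (v ∘ σ))) ∧
  (∀ (K : Type) [CommRing K] (O : Set K) (V : ℕ) (τ : Tp) (h : Fin 5 → Fm) (v : ℕ → K),
    (Sat O ((exsT V τ).inst h) v ↔ ∃ w : ℕ → K, (∀ i, V ≤ i → w i = v i) ∧
      Sat O (τ.inst h) w))

/-- UF-FML: meaning of the formulas of the level -/
def S_FML : Prop := ∀ (K : Type) [CommRing K] (O : Set K) (p : ℕ) (φ' : Fm)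
  (S : Set K) (t u w l : K) (Q : (ℕ → K) → Prop), Keeps Q →
  (∀ v, Q v → v 64 = t ∧ v 65 = u ∧ v 66 = w ∧ v 67 = l) →
  (∀ v, Q v → (Sat O φ' v ∨ v 0 = 0 ∨ v 0 = 1 ↔ v 0 ∈ S)) →
  RepQ O Q (hU p φ') (lev S t p u w l)

/-- UF-SEMA -/
def S_SEMA : Prop := ∀ (K : Type) [CommRing K] (O : Set K) (Q : (ℕ → K) → Prop)
  (h : Fin 5 → Fm) (M : Lev K), Keeps Q → RepQ O Q h M →
  ∀ n : ℕ, RepQ O Q ((stepH TA1)^[n] (stepH TA0 h)) M ∧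
    RepQ2 O Q ((stepH TA1)^[n] (stepH TA0 h)) M n

/-- UF-SEMB -/
def S_SEMB : Prop := ∀ (K : Type) [CommRing K] (O : Set K) (Q : (ℕ → K) → Prop)
  (h : Fin 5 → Fm) (M : Lev K) (n cc : ℕ), Keeps Q → RepQ O Q h M → RepQ2 O Q h M n →
  ∀ v, Q v →
    (Sat O (FinT.inst h) v ↔ ∃ b c : K, b ≠ 0 ∧ c ≠ 0 ∧
      (∀ x, M.D x → ∃ z, z ∈ O ∧ c * z = x) ∧
      ∀ x y, M.D x → M.D y → (∃ z y', z ∈ O ∧ b * z = y' ∧ y' + y = x) → x = y) ∧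
    (Sat O (OrdT.inst h) v ↔ (∀ x, ¬ M.L x x) ∧ (∀ x y z, M.L x y → M.L y z → M.L x z) ∧
      ∀ x y, M.D x → M.D y → x = y ∨ M.L x y ∨ M.L y x) ∧
    (Sat O ((HBody cc).inst h) v ↔ ∃ a, Num M n a ∧ ∃ m x, PairR M m a x ∧
      ∃ g, Num M cc g ∧ ∃ y, Num M 1 y ∧ Uni M 1 g x y)

/-- UF-UNI: the universal predicate -/
def S_UNI1 : Prop := ∀ (K : Type) (M : Lev K) (N : ℕ) (e : ℕ → K) (z1 : K), Func M →
  Enum M N e →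
  (∀ a b c : K, PairR M a b c →
    ∃ i j : ℕ, Nat.pair i j < N ∧ a = e i ∧ b = e j ∧ c = e (Nat.pair i j)) ∧
  ∀ c x y : ℕ, c < N → x < N → y < N → Uni M z1 (e c) (e x) (e y) →
    ∃ W : Set ℕ, Closed W ∧ tr c x y ∈ W ∧ ∀ t ∈ W, t < N

def S_UNI2 : Prop := ∀ (K : Type) (M : Lev K) (N : ℕ) (e : ℕ → K) (z0 z1 : K), Func M →
  Comp M → Enum M N e → M.D z0 → M.D z1 → z0 ≠ z1 →
  (∀ i j : ℕ, Nat.pair i j < N → PairR M (e i) (e j) (e (Nat.pair i j))) ∧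
  ∀ c x y : ℕ, c < N → x < N → y < N → (∃ W : Set ℕ, Closed W ∧ tr c x y ∈ W ∧
    ∀ t ∈ W, t < N) → Uni M z1 (e c) (e x) (e y)

/-- the set defined by the formula in the variable `x_0` with the parameters `v` -/
def DefSet (p : ℕ) (φ : Fm) (v : ℕ → LaurentSeries (ZMod p)) : Set (LaurentSeries (ZMod p)) :=
  {x | Sat (OO p) φ (update v 0 x)}

/-- UF-DISC: from uniform finiteness to discrete sets -/
def S_DISC : Prop := ∀ (p : ℕ) [Fact p.Prime],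
  (∀ φ : Fm, ∃ N : ℕ, ∀ v, (DefSet p φ v).Finite → (DefSet p φ v).ncard ≤ N) →
  ∀ (φ : Fm) (v : ℕ → LaurentSeries (ZMod p)),
    (∀ x, x ∈ DefSet p φ v → ∃ b : LaurentSeries (ZMod p), b ≠ 0 ∧
      ∀ y, y ∈ DefSet p φ v → (∃ z, z ∈ OO p ∧ b * z + x = y) → y = x) →
    (DefSet p φ v).Finite

end Pool.Agent.Y924.UF
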