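import Pool.Agent.Y924.UF.Stm

/-! # Project UF: scattered sets -/

set_option autoImplicit false

namespace Pool.Agent.Y924.UF

/-- UF4-BAIRE: a countable closed subset of `F_p((t))` is scattered -/
def S_BAIRE : Prop := ∀ (p : ℕ) [Fact p.Prime] (S : Set (LaurentSeries (ZMod p))), S.Countable →
  (∀ x, x ∉ S → ∃ b : LaurentSeries (ZMod p), b ≠ 0 ∧
    ∀ y ∈ S, ¬ ∃ z, z ∈ OO p ∧ b * z + x = y) →
  ∀ T : Set (LaurentSeries (ZMod p)), T ⊆ S → T.Nonempty → ∃ x ∈ T,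
    ∃ b : LaurentSeries (ZMod p), b ≠ 0 ∧ ∀ y ∈ T, (∃ z, z ∈ OO p ∧ b * z + x = y) → y = x

end Pool.Agent.Y924.UF
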